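import Pool.Agent.Helper730.SNB

set_option autoImplicit false

open scoped commutatorElement

namespace Pool.Agent.Results.MP_82c744_al.Series

open Pool.Agent.Helper730.SM

/-- Let `G` be a finitely generated group such that the variety generated by `G` is small. Suppose
that `G` has normal subgroups `1 = N 0 ≤ N 1 ≤ ... ≤ N k` such that `G / N k` satisfies the maximal
condition on normal subgroups and such that for each `i < k` there is a subgroup `H` of finite
index in `G` for which `(N (i+1) ∩ H) / (N i ∩ H)` is abelian and centralised by the derived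
subgroup of `H`. Then `G` satisfies the maximal condition on normal subgroups. -/
theorem result :
    ∀ (G : Type) [Group G], Group.FG G →
      (∃ (T : ℕ → Type) (_ : ∀ n, Group (T n)),
        ∀ (H : Type) [Group H], Group.FG H →
          (∀ w : FreeGroup ℕ, (∀ f : FreeGroup ℕ →* G, f w = 1) →
            ∀ f : FreeGroup ℕ →* H, f w = 1) →
          ∃ n, Nonempty (H ≃* T n)) →
      ∀ (k : ℕ) (N : ℕ → Subgroup G), (∀ i, (N i).Normal) → N 0 = ⊥ →
        (∀ i < k, N i ≤ N (i + 1) ∧ ∃ H : Subgroup G, H.FiniteIndex ∧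
          (∀ a ∈ N (i + 1) ⊓ H, ∀ b ∈ N (i + 1) ⊓ H, ⁅a, b⁆ ∈ N i) ∧
          ∀ a ∈ N (i + 1) ⊓ H, ∀ c ∈ ⁅H, H⁆, ⁅a, c⁆ ∈ N i) →
        (∀ K : ℕ → Subgroup G, (∀ j, (K j).Normal) → Monotone K → (∀ j, N k ≤ K j) →
          ∃ m, ∀ j, m ≤ j → K j = K m) →
        ∀ K : ℕ → Subgroup G, (∀ j, (K j).Normal) → Monotone K → ∃ m, ∀ j, m ≤ j → K j = K m := by
  intro G _ hfg hs k N hN h0 hc hmax
  refine chain_glue k N hN h0 (fun i hi => (hc i hi).1) ?_ hmax
  intro i hi K hKn hK h1 h2
  obtain ⟨hle, H, hH, hab, hcc⟩ := hc i hi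
  exact chain_factor2 (nb_of_small hs) hfg (N i) (N (i + 1)) H (hN i) (hN (i + 1)) hle hH hab hcc
    K hKn hK h1 h2

end Pool.Agent.Results.MP_82c744_al.Series
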